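import Pool.Agent.L0h19.QE.Stm

set_option autoImplicit false

/-!
# Project QE (helper19), module RPQ: group the solutions by the common value of two sums of four squares
-/

namespace Pool.Agent.L0h81.QE

open Finset Filter Topology
open Pool.Agent.L0h87.LE (odds)
open Pool.Agent.L0h19.QE

/-- the square sum -/
def sq (p : Fin 4 → ℕ) : ℕ := ∑ i, p i ^ 2

theorem mem_odds_le {N m : ℕ} (h : m ∈ odds N) : m ≤ N := by
  simp only [odds, mem_filter, mem_Icc] at h
  exact h.1.2

theorem sq_le {N : ℕ} {p : Fin 4 → ℕ} (h : p ∈ Fintype.piFinset fun _ : Fin 4 => odds N) : sq p ≤ 4 * N ^ 2 := by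
  rw [Fintype.mem_piFinset] at h
  calc sq p ≤ ∑ _i : Fin 4, N ^ 2 := Finset.sum_le_sum fun i _ => Nat.pow_le_pow_left (mem_odds_le (h i)) 2
    _ = 4 * N ^ 2 := by simp

theorem t_RPQ : S_RPQ := by
  intro N u w
  have e1 : G2 a8 N 0 ![u 0, u 1, u 2, u 3, w 0, w 1, w 2, w 3] =
      ∑ x ∈ ((Fintype.piFinset fun _ : Fin 4 => odds N) ×ˢ (Fintype.piFinset fun _ : Fin 4 => odds N)).filter
        (fun x => sq x.1 = sq x.2), (∏ i, u i (x.1 i)) * ∏ i, w i (x.2 i) := by
    unfold G2
    refine Finset.sum_nbij' (fun m => (![m 0, m 1, m 2, m 3], ![m 4, m 5, m 6, m 7]))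
      (fun x => ![x.1 0, x.1 1, x.1 2, x.1 3, x.2 0, x.2 1, x.2 2, x.2 3]) ?_ ?_ ?_ ?_ ?_
    · intro m hm
      simp only [mem_filter, Fintype.mem_piFinset] at hm
      obtain ⟨hm, he⟩ := hm
      simp only [mem_filter, mem_product, Fintype.mem_piFinset]
      refine ⟨⟨?_, ?_⟩, ?_⟩
      · intro i
        fin_cases i <;> simp [hm]
      · intro i
        fin_cases i <;> simp [hm]
      · simp only [sq, Fin.sum_univ_four]
        simp only [Fin.sum_univ_eight, a8] at he
        simp at he ⊢
        zify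
        linarith
    · intro x hx
      simp only [mem_filter, mem_product, Fintype.mem_piFinset] at hx
      obtain ⟨⟨h1, h2⟩, he⟩ := hx
      simp only [mem_filter, Fintype.mem_piFinset]
      refine ⟨?_, ?_⟩
      · intro i
        fin_cases i <;> simp [h1, h2]
      · simp only [sq, Fin.sum_univ_four] at he
        simp only [Fin.sum_univ_eight, a8]
        zify at he
        simp
        linarith
    · intro m _
      funext i
      fin_cases i <;> rfl
    · intro x _
      refine Prod.ext ?_ ?_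
      · funext i
        fin_cases i <;> rfl
      · funext i
        fin_cases i <;> rfl
    · intro m _
      simp only [Fin.prod_univ_eight, Fin.prod_univ_four]
      simp
      ring
  rw [e1, ← Finset.sum_fiberwise_of_maps_to (t := range (4 * N ^ 2 + 1)) (g := fun x => sq x.1)]
  · refine Finset.sum_congr rfl fun n _ => ?_
    unfold rp
    rw [Finset.sum_mul_sum, ← Finset.sum_product']
    refine Finset.sum_congr ?_ fun _ _ => rfl
    ext x
    simp only [mem_filter, mem_product]
    constructor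
    · rintro ⟨⟨⟨h1, h2⟩, h3⟩, h4⟩
      exact ⟨⟨h1, h4⟩, ⟨h2, h3.symm.trans h4⟩⟩
    · rintro ⟨⟨h1, h4⟩, ⟨h2, h5⟩⟩
      exact ⟨⟨⟨h1, h2⟩, Eq.trans h4 (Eq.symm h5)⟩, h4⟩
  · intro x hx
    simp only [mem_filter, mem_product] at hx
    exact mem_range.mpr (Nat.lt_succ_of_le (sq_le hx.1.1))

end Pool.Agent.L0h81.QE
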